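import Mathlib

set_option autoImplicit false

namespace Pool.Agent.TH176.NM

/-- conclusion of the counting: all numbers natural -/
lemma numer (n k d M m0 s s' : ℕ) (hn : 1 ≤ n) (hd : 3 * k + 2 ≤ d)
    (h1 : M * (k + d).choose (k + (k + 1)) ≤
      m0 * (k + d + n - 1).choose (d - (k + 1)) + s' * (k + d + n - 1).choose (k + (k + 1)))
    (h2 : m0 * (n + k - 1).choose k + s * (n + k - 1).choose k ≤
      s * (n + (k + (k + 1)) - 1).choose (k + (k + 1)))
    (hs : s' ≤ s) :
    M * (n + k - 1).choose k ≤ s * (n + (k + d) - 1).choose (k + d) := by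
  have eA : n + (k + d) - 1 = k + d + n - 1 := by omega
  rw [eA]
  have i2 := Nat.choose_mul (n := k + d + n - 1) (k := k + d) (s := k + (k + 1)) (by omega)
  have i1 := Nat.choose_mul (n := k + d + n - 1) (k := k + d) (s := d - (k + 1)) (by omega)
  have e1 : (k + d).choose (d - (k + 1)) = (k + d).choose (k + (k + 1)) := by
    have := Nat.choose_symm (n := k + d) (k := k + (k + 1)) (by omega)
    rw [← this]; congr 1; omega
  have e2 : k + d + n - 1 - (d - (k + 1)) = n + (k + (k + 1)) - 1 := by omega
  have e3 : k + d - (d - (k + 1)) = k + (k + 1) := by omega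
  rw [e1, e2, e3] at i1
  have e4 : (k + d + n - 1 - (k + (k + 1))).choose (k + d - (k + (k + 1))) =
      (k + d + n - 1 - (k + (k + 1))).choose (n - 1) := by
    have := Nat.choose_symm (n := k + d + n - 1 - (k + (k + 1))) (k := n - 1) (by omega)
    rw [← this]; congr 1; omega
  have e5 : (n + (k + (k + 1)) - 1).choose (k + (k + 1)) =
      (n + (k + (k + 1)) - 1).choose (n - 1) := by
    have := Nat.choose_symm (n := n + (k + (k + 1)) - 1) (k := n - 1) (by omega)
    rw [← this]; congr 1; omega
  have hle : (n + (k + (k + 1)) - 1).choose (n - 1) ≤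
      (k + d + n - 1 - (k + (k + 1))).choose (n - 1) :=
    Nat.choose_le_choose _ (by omega)
  rw [e4] at i2
  rw [e5] at i1 h2
  have hP : 0 < (k + d).choose (k + (k + 1)) := Nat.choose_pos (by omega)
  have hC2 : 0 < (k + d + n - 1 - (k + (k + 1))).choose (n - 1) := Nat.choose_pos (by omega)
  generalize (k + d).choose (k + (k + 1)) = P at *
  generalize (k + d + n - 1).choose (d - (k + 1)) = X at *
  generalize (k + d + n - 1).choose (k + (k + 1)) = Y at *
  generalize (k + d + n - 1).choose (k + d) = ND at *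
  generalize (n + (k + (k + 1)) - 1).choose (n - 1) = C1 at *
  generalize (k + d + n - 1 - (k + (k + 1))).choose (n - 1) = C2 at *
  generalize (n + k - 1).choose k = Nk at *
  have hYX : Y ≤ X := by
    have : Y * C2 ≤ X * C2 := by
      rw [← i2, i1]
      exact Nat.mul_le_mul_left _ hle
    exact Nat.le_of_mul_le_mul_right this hC2
  have h3 : M * P ≤ m0 * X + s * X := h1.trans (Nat.add_le_add_left (Nat.mul_le_mul hs hYX) _)
  refine Nat.le_of_mul_le_mul_right (c := P) ?_ hP
  calc M * Nk * P = M * P * Nk := by ring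
    _ ≤ (m0 * X + s * X) * Nk := Nat.mul_le_mul_right _ h3
    _ = (m0 * Nk + s * Nk) * X := by ring
    _ ≤ (s * C1) * X := Nat.mul_le_mul_right _ h2
    _ = s * (X * C1) := by ring
    _ = s * ND * P := by rw [← i1]; ring

/-- the count in the last degree: for `N ≥ 2`, `3 m + 2 ≤ d ≤ 3 m + 4` -/
lemma count4 (N m d : ℕ) (hN : 2 ≤ N) (hd : d ≤ 3 * m + 4) :
    (d + m + N).choose N ≤ 4 ^ N * (m + N).choose N := by
  refine (Nat.choose_le_choose N (show d + m + N ≤ 4 * m + 4 + N by omega)).trans ?_
  clear hd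
  induction N, hN using Nat.le_induction with
  | base =>
    have a1 : (4 * m + 6).choose 2 * 2 = (4 * m + 6) * (4 * m + 5) := by
      have := Nat.add_one_mul_choose_eq (4 * m + 5) 1
      simp only [Nat.choose_one_right] at this
      exact this.symm
    have a2 : (m + 2).choose 2 * 2 = (m + 2) * (m + 1) := by
      have := Nat.add_one_mul_choose_eq (m + 1) 1
      simp only [Nat.choose_one_right] at this
      exact this.symm
    show (4 * m + 6).choose 2 ≤ 4 ^ 2 * (m + 2).choose 2
    nlinarith
  | succ N hN ih =>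
    have a1 := Nat.add_one_mul_choose_eq (4 * m + 4 + N) N
    have a2 := Nat.add_one_mul_choose_eq (m + N) N
    refine Nat.le_of_mul_le_mul_right (c := N + 1) ?_ (Nat.succ_pos N)
    show (4 * m + 4 + N + 1).choose (N + 1) * (N + 1) ≤ 4 ^ (N + 1) * (m + N + 1).choose (N + 1) * (N + 1)
    rw [← a1, mul_assoc, ← a2]
    calc (4 * m + 4 + N + 1) * (4 * m + 4 + N).choose N ≤
        (4 * (m + N + 1)) * (4 ^ N * (m + N).choose N) :=
          Nat.mul_le_mul (by omega) ih
      _ = 4 ^ (N + 1) * ((m + N + 1) * (m + N).choose N) := by ring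

end Pool.Agent.TH176.NM
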